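import Pool.Agent.helper32.NN.Spec

set_option autoImplicit false

open Submodule

namespace Pool.Agent.NN

universe u v

section
variable {K : Type u} [Field K] {A : Type v} [NonUnitalRing A] [Module K A] [IsScalarTower K A A]
  [SMulCommClass K A A]

omit [IsScalarTower K A A] [SMulCommClass K A A] in
lemma TRA_mem (J : Submodule K A) (x : Unitization K A) :
    x ∈ im K A J ↔ ∃ y ∈ J, (y : Unitization K A) = x := by
  unfold im
  rw [Submodule.mem_map]
  rfl

omit [IsScalarTower K A A] [SMulCommClass K A A] in
lemma TRA_inj : Function.Injective (Unitization.inrHom K K A) := Unitization.inr_injective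

omit [IsScalarTower K A A] [SMulCommClass K A A] in
lemma TRA_memc (J : Submodule K A) (y : A) :
    (y : Unitization K A) ∈ im K A J ↔ y ∈ J := by
  rw [TRA_mem]
  constructor
  · rintro ⟨z, hz, e⟩
    have : z = y := Unitization.inr_injective e
    rwa [← this]
  · intro h
    exact ⟨y, h, rfl⟩

omit [IsScalarTower K A A] [SMulCommClass K A A] in
lemma TRA_le (J J' : Submodule K A) : im K A J ≤ im K A J' ↔ J ≤ J' := by
  constructor
  · intro h x hx
    exact (TRA_memc J' x).1 (h ((TRA_memc J x).2 hx))
  · intro h
    exact Submodule.map_mono h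

lemma TRA_id (J : Submodule K A) : IsId (im K A ⊤) (im K A J) ↔ IdealOf K A J := by
  constructor
  · rintro ⟨_, h2, h3⟩ a x hx
    constructor
    · have := h2 (Submodule.mul_mem_mul ((TRA_memc ⊤ a).2 trivial) ((TRA_memc J x).2 hx))
      rw [← Unitization.inr_mul] at this
      exact (TRA_memc J _).1 this
    · have := h3 (Submodule.mul_mem_mul ((TRA_memc J x).2 hx) ((TRA_memc ⊤ a).2 trivial))
      rw [← Unitization.inr_mul] at this
      exact (TRA_memc J _).1 this
  · intro h
    refine ⟨(TRA_le _ _).2 le_top, ?_, ?_⟩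
    · rw [Submodule.mul_le]
      intro m hm n hn
      obtain ⟨a, -, rfl⟩ := (TRA_mem _ _).1 hm
      obtain ⟨x, hx, rfl⟩ := (TRA_mem _ _).1 hn
      rw [← Unitization.inr_mul]
      exact (TRA_memc J _).2 (h a x hx).1
    · rw [Submodule.mul_le]
      intro m hm n hn
      obtain ⟨a, -, rfl⟩ := (TRA_mem _ _).1 hn
      obtain ⟨x, hx, rfl⟩ := (TRA_mem _ _).1 hm
      rw [← Unitization.inr_mul]
      exact (TRA_memc J _).2 (h a x hx).2

lemma TRA_pow (J : Submodule K A) (k : ℕ) :
    (im K A J) ^ (k + 1) = span K {z : Unitization K A | ∃ a ∈ J, ∃ l : List A, (∀ x ∈ l, x ∈ J) ∧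
      l.length = k ∧ ((l.foldl (fun x y => x * y) a : A) : Unitization K A) = z} := by
  induction k with
  | zero =>
    rw [zero_add, pow_one]
    apply le_antisymm
    · intro z hz
      obtain ⟨a, ha, rfl⟩ := (TRA_mem _ _).1 hz
      exact subset_span ⟨a, ha, [], by simp, rfl, rfl⟩
    · rw [span_le]
      rintro z ⟨a, ha, l, -, hl, rfl⟩
      have : l = [] := List.length_eq_zero_iff.1 hl
      subst this
      exact (TRA_memc J _).2 ha
  | succ k ih =>
    rw [pow_succ, ih]
    apply le_antisymm
    · rw [Submodule.mul_le]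
      intro m hm n hn
      obtain ⟨b, hb, rfl⟩ := (TRA_mem _ _).1 hn
      induction hm using Submodule.span_induction with
      | mem z hz =>
        obtain ⟨a, ha, l, hl, hk, rfl⟩ := hz
        refine subset_span ⟨a, ha, l ++ [b], ?_, ?_, ?_⟩
        · intro x hx
          rw [List.mem_append] at hx
          rcases hx with hx | hx
          · exact hl x hx
          · rw [List.mem_singleton] at hx
            rw [hx]
            exact hb
        · simp [hk]
        · rw [List.foldl_append, ← Unitization.inr_mul]
          rfl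
      | zero => rw [zero_mul]; exact zero_mem _
      | add x y _ _ hx hy => rw [add_mul]; exact add_mem hx hy
      | smul c x _ hx => rw [smul_mul_assoc]; exact smul_mem _ _ hx
    · rw [span_le]
      rintro z ⟨a, ha, l, hl, hk, rfl⟩
      have hne : l ≠ [] := by
        rintro rfl
        simp at hk
      obtain ⟨l', b, rfl⟩ : ∃ l' b, l = l' ++ [b] := ⟨l.dropLast, l.getLast hne,
        (List.dropLast_append_getLast hne).symm⟩
      rw [List.foldl_append]
      change ((l'.foldl (fun x y => x * y) a * b : A) : Unitization K A) ∈ _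
      rw [Unitization.inr_mul]
      apply Submodule.mul_mem_mul
      · refine subset_span ⟨a, ha, l', ?_, ?_, rfl⟩
        · intro x hx
          exact hl x (List.mem_append_left _ hx)
        · simpa using hk
      · exact (TRA_memc J _).2 (hl b (by simp))

lemma TRA_nil (J : Submodule K A) (k : ℕ) : (im K A J) ^ (k + 1) = ⊥ ↔ NilOf K A J k := by
  rw [TRA_pow, span_eq_bot]
  constructor
  · intro h a ha l hl hk
    have := h _ ⟨a, ha, l, hl, hk, rfl⟩
    exact Unitization.inr_injective (this.trans (Unitization.inr_zero K).symm)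
  · rintro h z ⟨a, ha, l, hl, hk, rfl⟩
    rw [h a ha l hl hk]
    exact Unitization.inr_zero K

omit [IsScalarTower K A A] [SMulCommClass K A A] in
lemma TRA_ex (S : Submodule K (Unitization K A)) (h : S ≤ im K A ⊤) :
    ∃ J : Submodule K A, im K A J = S := by
  refine ⟨S.comap (Unitization.inrHom K K A), ?_⟩
  unfold im at h ⊢
  rw [Submodule.map_comap_eq]
  rw [Submodule.map_top] at h
  exact inf_eq_right.2 h

lemma TRA_mul (J : Submodule K A) :
    im K A J * im K A J ≤ im K A J ↔ ∀ x ∈ J, ∀ y ∈ J, x * y ∈ J := by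
  constructor
  · intro h x hx y hy
    have := h (Submodule.mul_mem_mul ((TRA_memc J x).2 hx) ((TRA_memc J y).2 hy))
    rw [← Unitization.inr_mul] at this
    exact (TRA_memc J _).1 this
  · intro h
    rw [Submodule.mul_le]
    intro m hm n hn
    obtain ⟨a, ha, rfl⟩ := (TRA_mem _ _).1 hm
    obtain ⟨x, hx, rfl⟩ := (TRA_mem _ _).1 hn
    rw [← Unitization.inr_mul]
    exact (TRA_memc J _).2 (h a ha x hx)

omit [IsScalarTower K A A] [SMulCommClass K A A] in
lemma TRA_rank (h : 1 < Module.rank K A) : 1 < Module.rank K (im K A ⊤) := by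
  have e1 : (im K A ⊤) = LinearMap.range (Unitization.inrHom K K A) := by
    unfold im
    exact Submodule.map_top _
  have e := (LinearEquiv.ofInjective (Unitization.inrHom K K A) TRA_inj).lift_rank_eq
  rw [e1]
  have h1 : (1 : Cardinal) < Cardinal.lift.{max u v} (Module.rank K A) := by
    rw [Cardinal.one_lt_lift_iff]
    exact h
  rw [e, Cardinal.one_lt_lift_iff] at h1
  exact h1

end

theorem TRA : TRA_stmt.{u, v} := by
  intro K A _ _ _ _ _
  refine ⟨?_, TRA_id, TRA_nil, TRA_ex, TRA_le, TRA_mul⟩
  intro hr hp hn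
  refine ⟨(TRA_mul _).2 (fun _ _ _ _ => trivial), ?_, ?_, TRA_rank hr⟩
  · intro B hB hBB hne
    obtain ⟨J, rfl⟩ := TRA_ex B hB
    have hJ := (TRA_mul J).1 hBB
    let S : NonUnitalSubalgebra K A :=
      { J with
        mul_mem' := fun {a b} ha hb => hJ a ha b hb }
    have hS : S ≠ ⊤ := by
      intro hS
      apply hne
      have : J = ⊤ := by
        rw [eq_top_iff]
        intro x _
        have : x ∈ S := by rw [hS]; exact NonUnitalAlgebra.mem_top
        exact this
      rw [this]
    obtain ⟨n, h⟩ := hp S hS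
    exact ⟨n + 1, (TRA_nil J n).2 h⟩
  · intro n h
    cases n with
    | zero =>
      rw [pow_zero] at h
      have : (1 : Unitization K A) ∈ (1 : Submodule K (Unitization K A)) := Submodule.one_le.1 le_rfl
      rw [h, Submodule.mem_bot] at this
      exact one_ne_zero this
    | succ n =>
      apply hn
      refine ⟨n, ?_⟩
      intro a l hl
      exact (TRA_nil ⊤ n).1 h a trivial l (fun _ _ => trivial) hl

end Pool.Agent.NN
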